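import Pool.Agent.Work.MP_2738db_nt_U.Interface

/-!
Block CRT of theorem U (MP_2738db_nt): integers up to `N` in few classes modulo several primes.
-/

set_option autoImplicit false

namespace Pool.Agent.Work.MP_2738db_nt_U.helper12

open Finset
open Pool.Agent.Work.MP_2738db_nt_U

/-- **Block CRT.** -/
theorem stmt_CRT : Stmt_Crt := by
  classical
  intro Q hQ N hN P hP ha
  set W := ∏ q ∈ Q, q with hW
  have hW0 : 0 < W := prod_pos fun q hq => (hQ q hq).pos
  have hWr : (0 : ℝ) < W := by exact_mod_cast hW0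
  -- the condition depends on the class modulo each prime
  have hmod : ∀ q ∈ Q, ∀ c c' : ℕ, c % q = c' % q → P q c → P q c' := by
    intro q hq c c' h hc
    exact hP q hq c c' ((ZMod.natCast_eq_natCast_iff' c c' q).mpr h) hc
  -- allowed classes modulo one prime
  set a : ℕ → Finset ℕ := fun q => (range q).filter (fun x => P q x) with hadef
  have hacard : ∀ q ∈ Q, ((a q).card : ℝ) ≤ 5 / 6 * q := by
    intro q hq
    have h1 : Nat.card {x : Fin q // P q (x : ℕ)} = (a q).card := by
      rw [Nat.card_eq_fintype_card, Fintype.card_subtype]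
      refine card_bij (fun x _ => (x : ℕ)) ?_ ?_ ?_
      · intro x hx
        rw [mem_filter] at hx
        rw [hadef, mem_filter, mem_range]
        exact ⟨x.2, hx.2⟩
      · intro x _ y _ h
        exact Fin.ext h
      · intro y hy
        rw [hadef, mem_filter, mem_range] at hy
        exact ⟨⟨y, hy.1⟩, by simpa using hy.2, rfl⟩
    have h2 := ha q hq
    rw [h1] at h2
    have h3 : (6 : ℝ) * (a q).card ≤ 5 * q := by exact_mod_cast h2
    linarith
  -- allowed classes modulo `W`
  set R : Finset ℕ := (range W).filter (fun x => ∀ q ∈ Q, P q x) with hR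
  have hRcard : R.card ≤ ∏ q ∈ Q, (a q).card := by
    rw [← card_pi]
    refine card_le_card_of_injOn (fun x => fun q _ => x % q) ?_ ?_
    · intro x hx
      rw [hR, coe_filter] at hx
      rw [mem_coe, mem_pi]
      intro q hq
      rw [hadef, mem_filter, mem_range]
      exact ⟨Nat.mod_lt _ (hQ q hq).pos, hmod q hq x (x % q) (Nat.mod_mod _ _).symm (hx.2 q hq)⟩
    · intro x hx x' hx' h
      rw [hR, coe_filter] at hx hx'
      have hx1 : x < W := mem_range.mp hx.1
      have hx1' : x' < W := mem_range.mp hx'.1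
      have h1 : ∀ q ∈ Q, x % q = x' % q := by
        intro q hq
        exact congrFun (congrFun h q) hq
      have h2 : ((W : ℕ) : ℤ) ∣ (x' : ℤ) - x := by
        rw [hW]
        push_cast
        refine Finset.prod_dvd_of_coprime ?_ ?_
        · intro p hp q hq hpq
          have := (Nat.coprime_primes (hQ p hp) (hQ q hq)).mpr hpq
          exact (Nat.isCoprime_iff_coprime).mpr this
        · intro q hq
          exact (Nat.modEq_iff_dvd).mp (h1 q hq)
      have h3 : x ≡ x' [MOD W] := (Nat.modEq_iff_dvd).mpr h2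
      exact Nat.ModEq.eq_of_lt_of_lt h3 hx1 hx1'
  have hRr : (R.card : ℝ) ≤ (5 / 6 : ℝ) ^ Q.card * W := by
    calc (R.card : ℝ) ≤ ∏ q ∈ Q, ((a q).card : ℝ) := by exact_mod_cast hRcard
      _ ≤ ∏ q ∈ Q, (5 / 6 * (q : ℝ)) := prod_le_prod (fun _ _ => Nat.cast_nonneg _) hacard
      _ = _ := by
          rw [prod_mul_distrib, prod_const, hW]
          push_cast
          rfl
  -- the integers
  have hcount : Nat.card {c : ℕ // 1 ≤ c ∧ c ≤ N ∧ ∀ q ∈ Q, P q c} ≤ (N / W + 1) * R.card := by
    set C : Finset ℕ := (Icc 1 N).filter (fun c => ∀ q ∈ Q, P q c) with hC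
    have h1 : Nat.card {c : ℕ // 1 ≤ c ∧ c ≤ N ∧ ∀ q ∈ Q, P q c} = C.card := by
      rw [← Nat.card_eq_finsetCard C]
      refine Nat.card_congr (Equiv.subtypeEquivRight fun c => ?_)
      rw [hC, mem_filter, mem_Icc, and_assoc]
    rw [h1, ← card_range (N / W + 1), ← card_product]
    refine card_le_card_of_injOn (fun c => (c / W, c % W)) ?_ ?_
    · intro c hc
      rw [hC, coe_filter] at hc
      have hc1 := mem_Icc.mp hc.1
      rw [mem_coe, mem_product, mem_range]
      refine ⟨Nat.lt_succ_of_le (Nat.div_le_div_right hc1.2), ?_⟩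
      rw [hR, mem_filter, mem_range]
      refine ⟨Nat.mod_lt _ hW0, fun q hq => ?_⟩
      refine hmod q hq c (c % W) ?_ (hc.2 q hq)
      exact (Nat.mod_mod_of_dvd c (dvd_prod_of_mem (fun q => q) hq)).symm
    · intro c _ c' _ h
      have h1 : c / W = c' / W := congrArg Prod.fst h
      have h2 : c % W = c' % W := congrArg Prod.snd h
      rw [← Nat.div_add_mod c W, ← Nat.div_add_mod c' W, h1, h2]
  calc (Nat.card {c : ℕ // 1 ≤ c ∧ c ≤ N ∧ ∀ q ∈ Q, P q c} : ℝ)
      ≤ (((N / W + 1) * R.card : ℕ) : ℝ) := by exact_mod_cast hcount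
    _ = ((N / W : ℕ) + 1 : ℝ) * R.card := by push_cast; ring
    _ ≤ (2 * N / W : ℝ) * ((5 / 6 : ℝ) ^ Q.card * W) := by
        have h1 : ((N / W : ℕ) : ℝ) ≤ N / W := Nat.cast_div_le
        have h2 : (1 : ℝ) ≤ N / W := by
          rw [le_div_iff₀ hWr, one_mul]
          exact_mod_cast hN
        have h3 : (2 * N / W : ℝ) = N / W + N / W := by ring
        rw [h3]
        gcongr
    _ = 2 * N * (5 / 6 : ℝ) ^ Q.card := by
        field_simp

end Pool.Agent.Work.MP_2738db_nt_U.helper12
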