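import Pool.Agent.Work.MP_2738db_nt_U.Interface
import Pool.Agent.Work.MP_2738db_nt_W.SievePrimesA

/-!
Block PRI of theorem U (MP_2738db_nt): sieving primes with `k₀` outside a small set.
(Adapted from `MP_2738db_nt_W/SievePrimesA.lean`.)
-/

set_option autoImplicit false

namespace Pool.Agent.Work.MP_2738db_nt_U.helper12

open Finset Filter
open Pool.Agent.Work.MP_2738db_nt_U
open Pool.Agent.Work.MP_2738db_nt_W (primes_ap' primes_dyadic odd_of_mod)

/-- For one modulus. -/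
theorem count_gen {B : ℕ} {t y : ℝ} {l M : ℕ} (hT1 : ∀ D c : ℕ, 0 < D → (D : ℝ) ≤ 16 * t ^ (B + 4) →
    c.Coprime D → Real.exp t / (2 * D * t)
      ≤ (((Ioc 0 ⌊Real.exp t⌋₊).filter (fun q => q.Prime ∧ q % D = c % D)).card : ℝ))
    (ht : 16 ≤ t) (hy0 : 0 < y) (hl : 0 < l) (hlt : (l : ℝ) * y ^ 2 ≤ t ^ (B + 4))
    (hM1 : y ^ 2 < M) (hM2 : (M : ℝ) ≤ 4 * y ^ 2) :
    Real.exp t / (32 * l * y ^ 2 * t)
      ≤ (((Ioc 0 ⌊Real.exp t / (2 * l * y ^ 2)⌋₊).filter (fun k =>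
        (1 + 2 * l * M * k).Prime ∧ 1 + 2 * l * M * k ≤ ⌊Real.exp t⌋₊)).card : ℝ) := by
  have ht0 : 0 < t := by linarith
  have hlr : (1 : ℝ) ≤ l := by exact_mod_cast hl
  have hMr : (0 : ℝ) < M := lt_of_le_of_lt (by positivity) hM1
  have hM0 : 0 < M := by exact_mod_cast hMr
  have hX0 : 0 < Real.exp t := Real.exp_pos t
  set m := 2 * l * M with hm
  have hm2 : 2 ≤ m := by
    rw [hm]
    have := Nat.mul_pos hl hM0
    nlinarith
  have hco : (1 + m).Coprime (2 * m) := by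
    apply Nat.Coprime.mul_right
    · rw [hm, mul_assoc, Nat.coprime_two_right]
      exact ⟨l * M, by ring⟩
    · simp
  have hD : ((2 * m : ℕ) : ℝ) ≤ 16 * t ^ (B + 4) := by
    rw [hm]
    push_cast
    calc 2 * (2 * (l : ℝ) * M) ≤ 2 * (2 * l * (4 * y ^ 2)) := by gcongr
      _ = 16 * (l * y ^ 2) := by ring
      _ ≤ _ := by gcongr
  have h1 := hT1 (2 * m) (1 + m) (by omega) hD hco
  have h2 : ((Ioc 0 ⌊Real.exp t⌋₊).filter (fun q => q.Prime ∧ q % (2 * m) = (1 + m) % (2 * m))).card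
      ≤ ((Ioc 0 ⌊Real.exp t / (2 * l * y ^ 2)⌋₊).filter (fun k =>
        (1 + m * k).Prime ∧ 1 + m * k ≤ ⌊Real.exp t⌋₊)).card := by
    apply card_le_card_of_injOn (fun q => (q - 1) / m)
    · intro q hq
      have hq' := mem_filter.mp hq
      obtain ⟨hqI, hqp, hqm⟩ := hq'
      rw [mem_Ioc] at hqI
      obtain ⟨k, hk, hqk⟩ := odd_of_mod m q hm2 hqm
      have hk2 : (q - 1) / m = k := by
        rw [hqk, Nat.add_sub_cancel_left, Nat.mul_div_cancel_left k (by omega)]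
      have hk0 : 0 < k := hk.pos
      show (q - 1) / m ∈ _
      rw [hk2, mem_coe, mem_filter, mem_Ioc]
      refine ⟨⟨hk0, ?_⟩, hqk ▸ hqp, hqk ▸ hqI.2⟩
      apply Nat.le_floor
      rw [le_div_iff₀ (by positivity)]
      have h3 : (q : ℝ) ≤ Real.exp t := (Nat.cast_le.mpr hqI.2).trans (Nat.floor_le hX0.le)
      have h4 : (q : ℝ) = 1 + 2 * l * M * k := by
        rw [hqk, hm]
        push_cast
        ring
      have h5 : (k : ℝ) * (2 * l * y ^ 2) ≤ k * (2 * l * M) := by gcongr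
      linarith
    · intro q hq q' hq' heq
      rw [coe_filter] at hq hq'
      obtain ⟨k, _, hqk⟩ := odd_of_mod m q hm2 hq.2.2
      obtain ⟨k', _, hqk'⟩ := odd_of_mod m q' hm2 hq'.2.2
      have hk2 : (q - 1) / m = k := by
        rw [hqk, Nat.add_sub_cancel_left, Nat.mul_div_cancel_left k (by omega)]
      have hk2' : (q' - 1) / m = k' := by
        rw [hqk', Nat.add_sub_cancel_left, Nat.mul_div_cancel_left k' (by omega)]
      have heq' : (q - 1) / m = (q' - 1) / m := heq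
      rw [hk2, hk2'] at heq'
      rw [hqk, hqk', heq']
  have h3 : (((Ioc 0 ⌊Real.exp t⌋₊).filter (fun q => q.Prime ∧ q % (2 * m) = (1 + m) % (2 * m))).card : ℝ)
      ≤ (((Ioc 0 ⌊Real.exp t / (2 * l * y ^ 2)⌋₊).filter (fun k =>
        (1 + m * k).Prime ∧ 1 + m * k ≤ ⌊Real.exp t⌋₊)).card : ℝ) := by exact_mod_cast h2
  refine le_trans ?_ (h1.trans h3)
  have h4 : 2 * ((2 * m : ℕ) : ℝ) * t ≤ 32 * l * y ^ 2 * t := by
    rw [hm]
    push_cast
    have : 2 * (2 * (2 * (l : ℝ) * M)) ≤ 2 * (2 * (2 * (l : ℝ) * (4 * y ^ 2))) := by gcongr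
    calc 2 * (2 * (2 * (l : ℝ) * M)) * t ≤ 2 * (2 * (2 * (l : ℝ) * (4 * y ^ 2))) * t := by gcongr
      _ = _ := by ring
  have h5 : (0 : ℝ) < 2 * ((2 * m : ℕ) : ℝ) * t := by
    have : (0 : ℝ) < ((2 * m : ℕ) : ℝ) := by exact_mod_cast (by omega : 0 < 2 * m)
    positivity
  gcongr

/-- The combinatorial core, outside a small set. -/
theorem pigeon_avoid {B : ℕ} {t y : ℝ} {l : ℕ}
    (hT1 : ∀ D c : ℕ, 0 < D → (D : ℝ) ≤ 16 * t ^ (B + 4) →
    c.Coprime D → Real.exp t / (2 * D * t)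
      ≤ (((Ioc 0 ⌊Real.exp t⌋₊).filter (fun q => q.Prime ∧ q % D = c % D)).card : ℝ))
    (ht : 16 ≤ t) (hy0 : 0 < y) (hl : 0 < l) (hlt : (l : ℝ) * y ^ 2 ≤ t ^ (B + 4))
    (E : Finset ℕ) (hE : (E.card : ℝ) ≤ KK t y l / (64 * t))
    (n0 : ℝ) (hn00 : 0 ≤ n0) (hn0 : 64 * t * n0 < 3 * ((PY y).card.choose 2 : ℝ)) :
    ∃ k₀ : ℕ, k₀ ∉ E ∧ 1 ≤ k₀ ∧ (k₀ : ℝ) ≤ KK t y l ∧ n0 ≤ ((SP t y l k₀).card : ℝ) := by
  classical
  have ht0 : 0 < t := by linarith
  have hlr : (1 : ℝ) ≤ l := by exact_mod_cast hl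
  have hX0 : 0 < Real.exp t := Real.exp_pos t
  have hP : ∀ r ∈ PY y, r.Prime ∧ y < r ∧ (r : ℝ) ≤ 2 * y := by
    intro r hr
    rw [PY, mem_filter, mem_Ioc] at hr
    refine ⟨hr.2, (Nat.floor_lt hy0.le).mp hr.1.1, ?_⟩
    exact (Nat.cast_le.mpr hr.1.2).trans (Nat.floor_le (by linarith))
  set P := PY y with hPdef
  set S := P.powersetCard 2 with hS
  have hKK : KK t y l = Real.exp t / (2 * l * y ^ 2) := rfl
  have hKK0 : 0 < KK t y l := by rw [hKK]; positivity
  set K := ⌊KK t y l⌋₊ with hK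
  set G : Finset ℕ → ℕ → Prop := fun s k =>
        (1 + 2 * l * (∏ r ∈ s, r) * k).Prime ∧ 1 + 2 * l * (∏ r ∈ s, r) * k ≤ ⌊Real.exp t⌋₊ with hG
  -- bounds for the products
  have hprod : ∀ s ∈ S, y ^ 2 < ((∏ r ∈ s, r : ℕ) : ℝ) ∧ ((∏ r ∈ s, r : ℕ) : ℝ) ≤ 4 * y ^ 2 := by
    intro s hs
    rw [hS, mem_powersetCard] at hs
    obtain ⟨a, b, hab, rfl⟩ := card_eq_two.mp hs.2
    rw [prod_pair hab]
    have ha := hP a (hs.1 (by simp))
    have hb := hP b (hs.1 (by simp))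
    push_cast
    constructor
    · nlinarith [ha.2.1, hb.2.1]
    · nlinarith [ha.2.2, hb.2.2, ha.2.1, hb.2.1]
  have hScard : (S.card : ℝ) = (P.card.choose 2 : ℝ) := by
    rw [hS, card_powersetCard]
  have hsum : (S.card : ℝ) * (KK t y l / (16 * t))
      ≤ ∑ s ∈ S, (((Ioc 0 K).filter (fun k => G s k)).card : ℝ) := by
    have h1 : ∑ s ∈ S, (KK t y l / (16 * t))
        ≤ ∑ s ∈ S, (((Ioc 0 K).filter (fun k => G s k)).card : ℝ) := by
      refine sum_le_sum fun s hs => ?_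
      have h2 := count_gen hT1 ht hy0 hl hlt (hprod s hs).1 (hprod s hs).2
      refine le_trans (le_of_eq ?_) h2
      rw [hKK]
      field_simp
      ring
    rw [sum_const, nsmul_eq_mul] at h1
    exact h1
  have hswap : ∑ s ∈ S, (((Ioc 0 K).filter (fun k => G s k)).card : ℝ)
      = ∑ k ∈ Ioc 0 K, ((S.filter (fun s => G s k)).card : ℝ) := by
    simp_rw [card_filter]
    push_cast
    rw [sum_comm]
  have hKr : (K : ℝ) ≤ KK t y l := Nat.floor_le hKK0.le
  have hsplit : ∑ k ∈ Ioc 0 K, ((S.filter (fun s => G s k)).card : ℝ)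
      = ∑ k ∈ (Ioc 0 K).filter (fun k => k ∈ E), ((S.filter (fun s => G s k)).card : ℝ)
        + ∑ k ∈ (Ioc 0 K).filter (fun k => k ∉ E), ((S.filter (fun s => G s k)).card : ℝ) :=
    (sum_filter_add_sum_filter_not _ _ _).symm
  have hEsum : ∑ k ∈ (Ioc 0 K).filter (fun k => k ∈ E), ((S.filter (fun s => G s k)).card : ℝ)
      ≤ KK t y l / (64 * t) * S.card := by
    calc ∑ k ∈ (Ioc 0 K).filter (fun k => k ∈ E), ((S.filter (fun s => G s k)).card : ℝ)
        ≤ ∑ k ∈ (Ioc 0 K).filter (fun k => k ∈ E), (S.card : ℝ) := by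
          refine sum_le_sum fun k _ => ?_
          exact_mod_cast card_filter_le _ _
      _ = (((Ioc 0 K).filter (fun k => k ∈ E)).card : ℝ) * S.card := by
          rw [sum_const, nsmul_eq_mul]
      _ ≤ (E.card : ℝ) * S.card := by
          gcongr
          intro k hk
          exact (mem_filter.mp hk).2
      _ ≤ _ := by gcongr
  by_contra hcon
  push Not at hcon
  have hsmall : ∀ k ∈ (Ioc 0 K).filter (fun k => k ∉ E),
      ((S.filter (fun s => G s k)).card : ℝ) ≤ n0 := by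
    intro k hk
    rw [mem_filter, mem_Ioc] at hk
    have h1 := hcon k hk.2 hk.1.1 ((Nat.cast_le.mpr hk.1.2).trans hKr)
    refine le_trans ?_ h1.le
    -- the map to primes
    have hinj : Set.InjOn (fun s : Finset ℕ => 1 + 2 * l * (∏ r ∈ s, r) * k)
        (S.filter (fun s => G s k) : Finset (Finset ℕ)) := by
      intro s hs s' hs' heq
      have hs2 := (mem_filter.mp hs).1
      have hs2' := (mem_filter.mp hs').1
      rw [hS, mem_powersetCard] at hs2 hs2'
      have heq' : 1 + 2 * l * (∏ r ∈ s, r) * k = 1 + 2 * l * (∏ r ∈ s', r) * k := heq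
      have h1 : 2 * l * (∏ r ∈ s, r) * k = 2 * l * (∏ r ∈ s', r) * k := by omega
      have h2 := Nat.eq_of_mul_eq_mul_right hk.1.1 h1
      have h3 := Nat.eq_of_mul_eq_mul_left (by omega : 0 < 2 * l) h2
      have h4 : (∏ r ∈ s, r).primeFactors = s :=
        Nat.primeFactors_prod fun p hp => (hP p (hs2.1 hp)).1
      have h5 : (∏ r ∈ s', r).primeFactors = s' :=
        Nat.primeFactors_prod fun p hp => (hP p (hs2'.1 hp)).1
      rw [← h4, ← h5, h3]
    have hle : (S.filter (fun s => G s k)).card ≤ (SP t y l k).card := by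
      apply card_le_card_of_injOn _ _ hinj
      intro s hs
      have hs1 := mem_filter.mp hs
      obtain ⟨hsS, hp, hX⟩ := hs1
      rw [hS, mem_powersetCard] at hsS
      rw [mem_coe, SP, mem_filter, mem_range]
      refine ⟨Nat.lt_succ_of_le hX, hp, ?_⟩
      obtain ⟨a, b, hab, hsab⟩ := card_eq_two.mp hsS.2
      subst hsab
      have ha : a ∈ PY y := hsS.1 (by simp)
      have hb : b ∈ PY y := hsS.1 (by simp)
      rcases lt_or_gt_of_ne hab with h | h
      · exact ⟨a, ha, b, hb, h, by simp only [prod_pair hab]⟩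
      · exact ⟨b, hb, a, ha, h, by simp only [prod_pair hab]; ring⟩
    exact_mod_cast hle
  have hgood : ∑ k ∈ (Ioc 0 K).filter (fun k => k ∉ E), ((S.filter (fun s => G s k)).card : ℝ)
      ≤ KK t y l * n0 := by
    calc ∑ k ∈ (Ioc 0 K).filter (fun k => k ∉ E), ((S.filter (fun s => G s k)).card : ℝ)
        ≤ ∑ k ∈ (Ioc 0 K).filter (fun k => k ∉ E), n0 :=
          sum_le_sum fun k hk => hsmall k hk
      _ = (((Ioc 0 K).filter (fun k => k ∉ E)).card : ℝ) * n0 := by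
          rw [sum_const, nsmul_eq_mul]
      _ ≤ (K : ℝ) * n0 := by
          gcongr
          have := card_filter_le (Ioc 0 K) (fun k => k ∉ E)
          rwa [Nat.card_Ioc, Nat.sub_zero] at this
      _ ≤ _ := by gcongr
  have hfin : (S.card : ℝ) * (KK t y l / (16 * t)) ≤ KK t y l / (64 * t) * S.card
      + KK t y l * n0 := by
    calc (S.card : ℝ) * (KK t y l / (16 * t))
        ≤ ∑ k ∈ Ioc 0 K, ((S.filter (fun s => G s k)).card : ℝ) := by rw [← hswap]; exact hsum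
      _ ≤ _ := by rw [hsplit]; exact add_le_add hEsum hgood
  -- conclusion
  have h1 : (S.card : ℝ) * (KK t y l / (16 * t)) - KK t y l / (64 * t) * S.card
      = KK t y l * (3 * S.card / (64 * t)) := by
    field_simp
    ring
  have h2 : KK t y l * (3 * S.card / (64 * t)) ≤ KK t y l * n0 := by linarith
  have h3 : 3 * (S.card : ℝ) / (64 * t) ≤ n0 := le_of_mul_le_mul_left h2 hKK0
  rw [div_le_iff₀ (by positivity), hScard] at h3
  linarith

/-- **Block PRI.** -/
theorem stmt_PRI : Stmt_Pri := by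
  intro A
  obtain ⟨T1, hT1⟩ := primes_ap' (3 * A)
  obtain ⟨Y, hY⟩ := primes_dyadic
  have hev1 : ∀ᶠ y : ℝ in atTop, 2 ^ 24 * (Real.log y) ^ 2 ≤ y ^ (1 / 3 : ℝ) := by
    have h1 : (fun x : ℝ => Real.log x ^ (2 : ℝ)) =o[atTop] fun x : ℝ => x ^ (1 / 3 : ℝ) :=
      isLittleO_log_rpow_rpow_atTop 2 (by norm_num)
    have h2 := h1.bound (show (0 : ℝ) < 1 / 2 ^ 24 by norm_num)
    filter_upwards [h2, eventually_ge_atTop 1] with y hy hy1
    have hl0 := Real.log_nonneg hy1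
    rw [Real.norm_eq_abs, Real.norm_eq_abs, abs_of_nonneg (by positivity),
      abs_of_nonneg (by positivity), Real.rpow_two] at hy
    rw [one_div, inv_mul_eq_div, le_div_iff₀ (by positivity)] at hy
    linarith
  obtain ⟨Y1, hY1⟩ := eventually_atTop.mp hev1
  refine ⟨max T1 (max (max Y Y1) 16), ?_⟩
  intro t y ht hty hyt l hl hlt E hE
  have ht1 : T1 ≤ t := (le_max_left _ _).trans ht
  have ht' := (le_max_right _ _).trans ht
  have htY : max Y Y1 ≤ t := (le_max_left _ _).trans ht'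
  have ht16 : (16 : ℝ) ≤ t := (le_max_right _ _).trans ht'
  have ht0 : 0 < t := by linarith
  have htr : t ≤ t ^ (3 / 2 : ℝ) := by
    nth_rewrite 1 [← Real.rpow_one t]
    exact Real.rpow_le_rpow_of_exponent_le (by linarith) (by norm_num)
  have hty' : t ≤ y := htr.trans hty
  have hy0 : 0 < y := by linarith
  have hyY : Y ≤ y := ((le_max_left _ _).trans htY).trans hty'
  have hyY1 : Y1 ≤ y := ((le_max_right _ _).trans htY).trans hty'
  have e1 := hY1 y hyY1
  have e2 := hY y hyY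
  have hlog : 1 ≤ Real.log y := by
    rw [Real.le_log_iff_exp_le hy0]
    have := Real.exp_one_lt_d9
    linarith
  have hlt2 : (l : ℝ) * y ^ 2 ≤ t ^ (3 * A + 4) := by
    have h1 : (l : ℝ) * y ^ 2 ≤ t ^ A * (t ^ A) ^ 2 := by gcongr
    refine h1.trans ?_
    rw [← pow_mul, ← pow_add]
    exact pow_le_pow_right₀ (by linarith) (by omega)
  have hpairs : 64 * t * (1000 * y + 1) < 3 * ((PY y).card.choose 2 : ℝ) := by
    rw [Nat.cast_choose_two]
    set n : ℝ := ((PY y).card : ℝ) with hn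
    have h1 : y / (8 * Real.log y) ≤ n := e2
    have ht23 : t ≤ y ^ (2 / 3 : ℝ) := by
      have h5 : (t ^ (3 / 2 : ℝ)) ^ (2 / 3 : ℝ) ≤ y ^ (2 / 3 : ℝ) :=
        Real.rpow_le_rpow (by positivity) hty (by norm_num)
      rw [← Real.rpow_mul ht0.le] at h5
      norm_num at h5
      exact h5
    have h13 : y ^ (2 / 3 : ℝ) * y ^ (1 / 3 : ℝ) = y := by
      rw [← Real.rpow_add hy0]
      norm_num
    have h13le : y ^ (1 / 3 : ℝ) ≤ y := by
      nth_rewrite 2 [← Real.rpow_one y]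
      exact Real.rpow_le_rpow_of_exponent_le (by linarith) (by norm_num)
    have hlsq : Real.log y ≤ (Real.log y) ^ 2 := by nlinarith
    have h2 : 2 ≤ n := by
      refine le_trans ?_ h1
      rw [le_div_iff₀ (by positivity)]
      linarith
    have h3 : n ^ 2 / 4 ≤ n * (n - 1) / 2 := by nlinarith
    have h4 : (y / (8 * Real.log y)) ^ 2 ≤ n ^ 2 := by gcongr
    have h5 : t * (2 ^ 24 * (Real.log y) ^ 2) ≤ y := by
      calc t * (2 ^ 24 * (Real.log y) ^ 2) ≤ y ^ (2 / 3 : ℝ) * y ^ (1 / 3 : ℝ) := by gcongr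
        _ = y := h13
    have h6 : 64 * t * (1000 * y + 1) < 3 * ((y / (8 * Real.log y)) ^ 2 / 4) := by
      rw [div_pow, div_div, ← mul_div_assoc, lt_div_iff₀ (by positivity)]
      have h7 : 1000 * y + 1 ≤ 1001 * y := by linarith
      calc 64 * t * (1000 * y + 1) * ((8 * Real.log y) ^ 2 * 4)
          ≤ 64 * t * (1001 * y) * ((8 * Real.log y) ^ 2 * 4) := by gcongr
        _ = y * (t * (64 * 1001 * 256 * (Real.log y) ^ 2)) := by ring
        _ ≤ y * (t * (2 ^ 24 * (Real.log y) ^ 2)) := by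
            gcongr
            norm_num
        _ ≤ y * y := by gcongr
        _ < 3 * y ^ 2 := by nlinarith
    linarith
  exact pigeon_avoid (hT1 t ht1) ht16 hy0 hl hlt2 E hE (1000 * y + 1) (by linarith) hpairs

end Pool.Agent.Work.MP_2738db_nt_U.helper12
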